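import Pool.Agent.Helper36.SPR.St4

set_option autoImplicit false

namespace Pool.Agent.Helper65.SPR

open Finset
open Pool.Agent.Helper36.SPR

/-- the additive character modulo `m n` at a multiple of `n` -/
theorem addChar_mul (m n k l : ℕ) [NeZero m] [NeZero l] (hl : l = m * n) :
    (ZMod.stdAddChar ((n * k : ℕ) : ZMod l) : ℂ) = ZMod.stdAddChar ((k : ℕ) : ZMod m) := by
  have h1 : (ZMod.stdAddChar (((n * k : ℕ) : ℤ) : ZMod l) : ℂ)
      = Complex.exp (2 * Real.pi * Complex.I * ((n * k : ℕ) : ℤ) / l) := ZMod.stdAddChar_coe _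
  have h2 : (ZMod.stdAddChar (((k : ℕ) : ℤ) : ZMod m) : ℂ)
      = Complex.exp (2 * Real.pi * Complex.I * ((k : ℕ) : ℤ) / m) := ZMod.stdAddChar_coe _
  have hlm : (l : ℂ) = m * n := by rw [hl]; push_cast; ring
  have hl0 : (l : ℂ) ≠ 0 := by exact_mod_cast NeZero.ne l
  have hm0 : (m : ℂ) ≠ 0 := by exact_mod_cast NeZero.ne m
  have hn0 : (n : ℂ) ≠ 0 := by
    intro h
    rw [hlm, h, mul_zero] at hl0
    exact hl0 rfl
  have e1 : (((n * k : ℕ) : ℤ) : ZMod l) = ((n * k : ℕ) : ZMod l) := by push_cast; ring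
  have e2 : (((k : ℕ) : ℤ) : ZMod m) = ((k : ℕ) : ZMod m) := by push_cast; ring
  rw [← e1, ← e2, h1, h2, hlm]
  congr 1
  push_cast
  field_simp

theorem muv_mul (m n l T x t : ℕ) [NeZero m] [NeZero l] (hl : l = m * n) :
    muv l T ((t : ℕ) : ZMod l) ((n * x : ℕ) : ZMod l) =
      muv m T ((t : ℕ) : ZMod m) ((x : ℕ) : ZMod m) := by
  unfold muv
  congr 1
  refine Finset.sum_congr rfl fun i _ => ?_
  have h1 : ((n * x : ℕ) : ZMod l) * ((t : ℕ) : ZMod l) ^ i = ((n * (x * t ^ i) : ℕ) : ZMod l) := by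
    push_cast; ring
  have h2 : ((x : ℕ) : ZMod m) * ((t : ℕ) : ZMod m) ^ i = ((x * t ^ i : ℕ) : ZMod m) := by
    push_cast; ring
  rw [h1, h2]
  exact addChar_mul m n (x * t ^ i) l hl

theorem hMC3 : StMC3 := by
  intro p q T x _ _ th
  have h0 : th = ((th.val : ℕ) : ZMod (p * q)) := (ZMod.natCast_zmod_val th).symm
  have h1 : (ZMod.cast th : ZMod p) = ((th.val : ℕ) : ZMod p) := (ZMod.natCast_val th).symm
  have h2 : (ZMod.cast th : ZMod q) = ((th.val : ℕ) : ZMod q) := (ZMod.natCast_val th).symm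
  rw [h1, h2]
  constructor
  · conv_lhs => rw [h0]
    exact muv_mul p q (p * q) T x _ rfl
  · conv_lhs => rw [h0]
    exact muv_mul q p (p * q) T x _ (mul_comm p q)

end Pool.Agent.Helper65.SPR
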